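import Pool.Agent.W2helper44.OT.Stm

/-!
# Project OT, piece ODD
-/

set_option autoImplicit false

namespace Pool.Agent.W2helper97.OT

open Pool.Agent.W2helper44.OT Module

lemma eqv {M : Type} [AddCommGroup M] (K K' R R' : Submodule ℤ M) (hK : K = K') (hR : R = R') :
    Nonempty ((K ⧸ R.submoduleOf K) ≃ₗ[ℤ] (K' ⧸ R'.submoduleOf K')) := by
  subst hK hR
  exact ⟨LinearEquiv.refl ℤ _⟩

lemma norm_mul {A : Type} [Ring A] (h : A) (m' p : ℕ) (hh : h ^ m' = 1) :
    ∑ j ∈ Finset.range (p * m'), h ^ j = (p : ℤ) • ∑ j ∈ Finset.range m', h ^ j := by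
  induction p with
  | zero => simp
  | succ p ih =>
    have h1 : ∀ j, h ^ (p * m' + j) = h ^ j := by
      intro j
      rw [pow_add, mul_comm p m', pow_mul, hh, one_pow, one_mul]
    rw [Nat.succ_mul, Finset.sum_range_add, ih, Finset.sum_congr rfl fun j _ => h1 j]
    push_cast
    rw [add_smul, one_smul]

theorem p_ODD : P_ODD := by
  intro M _ h m' p hp htf hh s hs
  have hpow : (h : Module.End ℤ M) ^ m' = 1 := by
    ext x
    exact hh x
  have h1 : op h (p * m') s = (p : ℤ) • op h m' s := by
    unfold op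
    rw [if_neg hs, if_neg hs]
    exact norm_mul (A := Module.End ℤ M) h m' p hpow
  have h2 : Even (s + 1) := by
    rcases Nat.even_or_odd s with h3 | h3
    · exact absurd h3 hs
    · exact h3.add_one
  have h3 : op h (p * m') (s + 1) = op h m' (s + 1) := by
    unfold op
    rw [if_pos h2, if_pos h2]
  refine eqv _ _ _ _ ?_ (by rw [h3])
  rw [h1]
  ext x
  simp only [LinearMap.mem_ker, LinearMap.smul_apply]
  constructor
  · exact htf _ _ (by exact_mod_cast hp.ne_zero)
  · intro h4
    rw [h4, smul_zero]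

end Pool.Agent.W2helper97.OT
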